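import Pool.Agent.Lib.MP_786755_nt.W.Count2

namespace Pool.Agent.Results.MP_786755_nt.Exceptional

/-- All but `O(N ^ (41 / 48 + ε))` of the integers `n` with `|n| ≤ N` are sums of four integer
cubes. -/
theorem result (ε : ℝ) (hε : 0 < ε) : ∃ C : ℝ, ∀ N : ℕ,
    (Set.ncard {n : ℤ | |n| ≤ N ∧ ¬∃ a b c d : ℤ, n = a ^ 3 + b ^ 3 + c ^ 3 + d ^ 3} : ℝ) ≤
      C * (N : ℝ) ^ (41 / 48 + ε) := by
  classical
  obtain ⟨C, h⟩ := Lib.MP_786755_nt.count_int2 hε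
  refine ⟨C, fun N => le_trans (le_of_eq ?_) (h N)⟩
  rw [← Set.ncard_coe_finset]
  congr 2
  ext n
  simp [abs_le, Lib.MP_786755_nt.Exc]

end Pool.Agent.Results.MP_786755_nt.Exceptional
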