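import Pool.Agent.Lib.MP_786755_nt.Final

namespace Pool.Agent.Results.MP_786755_nt.LinearPairs

open Polynomial Pool.Agent.Lib.MP_786755_nt

theorem result (P₁ P₂ P₃ P₄ : Polynomial ℚ) (M : ℚ) (r : ℤ) (hr : r % 9 = 4 ∨ r % 9 = 5)
    (h₁ : ∃ n : ℤ, P₁.eval 0 = n) (h₂ : ∃ n : ℤ, P₂.eval 0 = n)
    (h₃ : ∃ n : ℤ, P₃.eval 0 = n) (h₄ : ∃ n : ℤ, P₄.eval 0 = n)
    (h : P₁ ^ 3 + P₂ ^ 3 + P₃ ^ 3 + P₄ ^ 3 = Polynomial.C M * Polynomial.X + Polynomial.C (r : ℚ))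
    (hs₁ : (P₁ + P₂).natDegree ≤ 1) (hs₂ : (P₃ + P₄).natDegree ≤ 1) :
    P₁.natDegree = 0 ∧ P₂.natDegree = 0 ∧ P₃.natDegree = 0 ∧ P₄.natDegree = 0 := by
  rcases hr with hr | hr
  · exact case3 _ _ _ _ M r hr h h₁ h₂ h₃ h₄ hs₁ hs₂
  · have ng : ∀ P : ℚ[X], (∃ n : ℤ, P.eval 0 = n) → ∃ n : ℤ, (-P).eval 0 = n := by
      rintro P ⟨n, hn⟩
      exact ⟨-n, by simp [hn]⟩
    have h' : (-P₁) ^ 3 + (-P₂) ^ 3 + (-P₃) ^ 3 + (-P₄) ^ 3 = C (-M) * X + C ((-r : ℤ) : ℚ) := by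
      push_cast
      rw [map_neg, map_neg]
      linear_combination -h
    have := case3 _ _ _ _ (-M) (-r) (by omega) h' (ng _ h₁) (ng _ h₂) (ng _ h₃) (ng _ h₄)
      (by rwa [← neg_add, natDegree_neg]) (by rwa [← neg_add, natDegree_neg])
    simpa only [natDegree_neg] using this

end Pool.Agent.Results.MP_786755_nt.LinearPairs
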